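import Pool.Agent.Helper819.S0

set_option linter.all false

namespace Pool.Agent.W347.ML

open Pool.Agent.Helper819.Dyn

theorem card_Ex (N d : ℕ) : Fintype.card (Ex N d) = ((N + 1) + d - 1).choose d := by
  have e1 : Ex N d ≃ {P : Fin (N + 1) → ℕ // ∑ i, P i = d} :=
    { toFun := fun a => ⟨a.1, by
        have := (mem_Ex a.1).mp a.2
        rwa [Finsupp.degree_eq_sum] at this⟩
      invFun := fun P => ⟨Finsupp.equivFunOnFinite.symm P.1, by
        rw [mem_Ex, Finsupp.degree_eq_sum]
        exact P.2⟩
      left_inv := fun a => by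
        apply Subtype.ext
        ext i
        rfl
      right_inv := fun P => by
        apply Subtype.ext
        rfl }
  have e2 := e1.trans (Sym.equivNatSumOfFintype (Fin (N + 1)) d).symm
  rw [Fintype.card_congr e2, Sym.card_sym_eq_choose, Fintype.card_fin]

theorem two_card_Ex (N d : ℕ) (hd : 2 ≤ d) : (N + 1) * (N + 2) ≤ 2 * Fintype.card (Ex N d) := by
  rw [card_Ex]
  have h1 : ((N + 1) + d - 1).choose d = (N + d).choose N := by
    have : (N + 1) + d - 1 = N + d := by omega
    rw [this, ← Nat.choose_symm_add]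
  have h2 : (N + 2).choose N ≤ (N + d).choose N := Nat.choose_le_choose N (by omega)
  have h3 : (N + 2).choose N = (N + 2).choose 2 := by
    rw [← Nat.choose_symm_add]
  have h4 : (N + 2).choose 2 * 2 = (N + 2) * (N + 1) := by
    rw [Nat.choose_two_right]
    have : 2 ∣ (N + 2) * (N + 2 - 1) := by
      have := (Nat.even_mul_succ_self (N + 1)).two_dvd
      have h5 : (N + 2) * (N + 2 - 1) = (N + 1) * (N + 1 + 1) := by
        have : N + 2 - 1 = N + 1 := by omega
        rw [this]; ring
      rw [h5]; exact this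
    rw [Nat.div_mul_cancel this]
    rfl
  rw [h1]
  nlinarith

theorem count {K : Type} [Field K] [DecidableEq K] {N d : Nat} (hN : 2 ≤ N) (hd : 2 ≤ d)
    (l : Fin (N+1) → K) (t : K) (hl : ∃ i j, l i ≠ l j) :
    (Finset.univ.filter fun ij : Fin (N+1) × Fin (N+1) => l ij.1 ≠ l ij.2).card + 2 ≤
      (Finset.univ.filter fun p : Ix N d => t * ∏ j, l j ^ (p.2.1 j) ≠ l p.1).card := by
  classical
  let m : K → ℕ := fun x => (Finset.univ.filter fun i => x = l i).card
  have hm : ∀ x, (Finset.univ.filter fun i => x ≠ l i).card + m x = N + 1 := by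
    intro x
    have := Finset.card_filter_add_card_filter_not (s := (Finset.univ : Finset (Fin (N+1)))) (fun i => x = l i)
    rw [Finset.card_univ, Fintype.card_fin] at this
    simp only [m, ne_eq]
    omega
  obtain ⟨i0, _, hi0⟩ := Finset.exists_max_image (Finset.univ : Finset (Fin (N+1))) (fun i => m (l i))
    ⟨0, Finset.mem_univ _⟩
  have hmax : ∀ x, m x ≤ m (l i0) := by
    intro x
    by_cases hx : ∃ i, x = l i
    · obtain ⟨i, rfl⟩ := hx
      exact hi0 i (Finset.mem_univ _)
    · have : m x = 0 := by
        simp only [m, Finset.card_eq_zero, Finset.filter_eq_empty_iff]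
        intro i _ h
        exact hx ⟨i, h⟩
      omega
  have hpos : ∀ i, 1 ≤ m (l i) := by
    intro i
    simp only [m]
    apply Finset.card_pos.mpr
    exact ⟨i, by simp⟩
  -- M < n
  have hMlt : m (l i0) < N + 1 := by
    by_contra hcon
    have h1 := hm (l i0)
    have h2 : (Finset.univ.filter fun i => l i0 ≠ l i).card = 0 := by omega
    rw [Finset.card_eq_zero, Finset.filter_eq_empty_iff] at h2
    obtain ⟨i, j, hij⟩ := hl
    apply hij
    have h3 := h2 (Finset.mem_univ i)
    have h4 := h2 (Finset.mem_univ j)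
    rw [not_not] at h3 h4
    rw [← h3, h4]
  -- right side
  have hR : Fintype.card (Ex N d) * (N + 1 - m (l i0)) ≤
      (Finset.univ.filter fun p : Ix N d => t * ∏ j, l j ^ (p.2.1 j) ≠ l p.1).card := by
    rw [Finset.card_filter, Fintype.sum_prod_type_right]
    calc Fintype.card (Ex N d) * (N + 1 - m (l i0)) = ∑ a : Ex N d, (N + 1 - m (l i0)) := by
          rw [Finset.sum_const, Finset.card_univ, smul_eq_mul]
      _ ≤ _ := by
          apply Finset.sum_le_sum
          intro a _
          rw [← Finset.card_filter]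
          have h1 := hm (t * ∏ j, l j ^ (a.1 j))
          have h2 := hmax (t * ∏ j, l j ^ (a.1 j))
          show N + 1 - m (l i0) ≤ (Finset.univ.filter fun i => t * ∏ j, l j ^ (a.1 j) ≠ l i).card
          omega
  -- left side
  have hL : (Finset.univ.filter fun ij : Fin (N+1) × Fin (N+1) => l ij.1 ≠ l ij.2).card
      + ∑ i, m (l i) = (N + 1) * (N + 1) := by
    rw [Finset.card_filter, Fintype.sum_prod_type, ← Finset.sum_add_distrib]
    calc _ = ∑ i : Fin (N+1), (N + 1) := by
          apply Finset.sum_congr rfl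
          intro i _
          rw [← Finset.card_filter]
          exact hm (l i)
      _ = _ := by simp
  have hS : m (l i0) * m (l i0) + (N + 1 - m (l i0)) ≤ ∑ i, m (l i) := by
    rw [← Finset.sum_filter_add_sum_filter_not Finset.univ (fun i => l i0 = l i)]
    apply add_le_add
    · rw [Finset.sum_congr rfl (g := fun _ => m (l i0))]
      · rw [Finset.sum_const, smul_eq_mul]
      · intro i hi
        rw [(Finset.mem_filter.mp hi).2]
    · calc N + 1 - m (l i0) = (Finset.univ.filter fun i => ¬ l i0 = l i).card := by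
            have := hm (l i0)
            simp only [ne_eq] at this
            omega
        _ = ∑ i ∈ Finset.univ.filter fun i => ¬ l i0 = l i, 1 := by simp
        _ ≤ _ := Finset.sum_le_sum fun i _ => hpos i
  have hE := two_card_Ex N d hd
  obtain ⟨k, hk⟩ : ∃ k, N + 1 = m (l i0) + k := ⟨N + 1 - m (l i0), by omega⟩
  have hk' : N + 1 - m (l i0) = k := by omega
  rw [hk'] at hR hS
  have hk1 : 1 ≤ k := by omega
  generalize m (l i0) = M at *
  generalize (Finset.univ.filter fun ij : Fin (N+1) × Fin (N+1) => l ij.1 ≠ l ij.2).card = A at *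
  generalize (Finset.univ.filter fun p : Ix N d => t * ∏ j, l j ^ (p.2.1 j) ≠ l p.1).card = B at *
  generalize Fintype.card (Ex N d) = E at *
  generalize ∑ i, m (l i) = S at *
  have h1 : A + (M * M + k) ≤ (N + 1) * (N + 1) := by omega
  have hMk : M = N + 1 - k := by omega
  zify at *
  have hM2 : (M : ℤ) = N + 1 - k := by linarith
  have h2 : (N + 1 : ℤ) * (N + 2) * k ≤ 2 * E * k := by
    apply mul_le_mul_of_nonneg_right hE (by linarith)
  rw [hM2] at h1
  nlinarith [mul_nonneg (show (0:ℤ) ≤ k by linarith) (show (0:ℤ) ≤ (N - 2) * (N + 1) by nlinarith)]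

end Pool.Agent.W347.ML
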